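import Pool.Agent.Helper58.PLK.Base
import Pool.Agent.Helper58.PLK.B3.B0
import Pool.Agent.Helper58.PLK.B3.S0

/-!
# The case B3 is impossible (generated)
-/

set_option maxRecDepth 100000

namespace Pool.Agent.Helper58.PLK.B3

theorem one : Nat.beq (Nat.land (full t u 0) 2) 2 = true := by decide +kernel

theorem last : Nat.beq (full t u (nat_lit 6989)) 1 = true := by decide +kernel

theorem unsat {Se : Nat → Prop} (hgen : ∀ a, ClauseT Se (gen (exB ht 9 (FT.leaf fun _ => [1])) ht a)) : False := by
  have h : Inv (asg Se vt) t u 1 := inv_one one
  replace h := base_seg b0 hgen h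
  replace h := base_seg b1 hgen h
  replace h := base_seg b2 hgen h
  replace h := base_seg b3 hgen h
  replace h := base_seg b4 hgen h
  replace h := base_seg b5 hgen h
  replace h := base_seg b6 hgen h
  replace h := base_seg b7 hgen h
  replace h := seg_sound (by decide) s0 h
  replace h := seg_sound (by decide) s1 h
  exact false_of_inv last h

end Pool.Agent.Helper58.PLK.B3
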